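import Mathlib

set_option autoImplicit false

namespace Pool.Agent.Results.MP_1ae31d_co.Paving

open Finset

open Classical in
/-- number of independent sets of size `k` -/
noncomputable def f {m : ℕ} (M : Matroid (Fin m)) (k : ℕ) : ℕ :=
  (univ.filter fun I : Finset (Fin m) => I.card = k ∧ M.Indep I).card

/-- the reliability polynomial, evaluated at `q` -/
noncomputable def rel {m : ℕ} (M : Matroid (Fin m)) (q : ℂ) : ℂ :=
  ∑ k ∈ range (m + 1), f M k * q ^ k * (1 - q) ^ (m - k)

def IsPaving {m : ℕ} (M : Matroid (Fin m)) : Prop := ∀ C, M.IsCircuit C → M.eRank ≤ C.encard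

def g (d : ℕ) : ℕ → ℤ
  | 0 => 1
  | i + 1 => d.multichoose (i + 1) - g d i

lemma g_succ (d : ℕ) : ∀ i, g (d + 1) (i + 1) = g d (i + 1) + g (d + 1) i
  | 0 => by simp [g]
  | i + 1 => by
    have h1 := g_succ d i
    have h2 : g (d + 1) (i + 1) = _ - g (d + 1) i := rfl
    have h3 : g (d + 1) (i + 1 + 1) = _ - g (d + 1) (i + 1) := rfl
    have h4 : g d (i + 1 + 1) = _ - g d (i + 1) := rfl
    rw [Nat.multichoose_succ_succ] at h3
    push_cast at h3
    linarith

lemma g_nonneg : ∀ d i, 0 ≤ g (d + 1) i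
  | 0, i => by
    have : ∀ i, g 1 i = 0 ∨ g 1 i = 1 := by
      intro i
      induction i with
      | zero => simp [g]
      | succ i ih => simp only [g, Nat.multichoose_one]; omega
    have := this i
    simp only [zero_add]
    omega
  | _ + 1, 0 => by simp [g]
  | d + 1, i + 1 => by
    rw [g_succ]
    exact add_nonneg (g_nonneg d _) (g_nonneg (d + 1) i)

lemma g_two (i : ℕ) : g 2 i = (i / 2 + 1 : ℕ) := by
  induction i with
  | zero => simp [g]
  | succ i ih => rw [g, ih, Nat.multichoose_two]; omega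

section comb
variable {α : Type} [DecidableEq α]

structure Pav (E : Finset α) (r : ℕ) (𝓑 : Finset (Finset α)) : Prop where
  sub : ∀ B ∈ 𝓑, B ⊆ E ∧ B.card = r
  P : ∀ Z ⊆ E, Z.card = r + 1 → ∀ x ∈ Z, ∀ y ∈ Z, ∀ z ∈ Z, x ≠ y → Z.erase x ∉ 𝓑 →
    Z.erase y ∉ 𝓑 → Z.erase z ∉ 𝓑
  NC : ∀ e ∈ E, ∃ B ∈ 𝓑, e ∉ B

lemma er {X Z : Finset α} (h : X ⊆ Z) (hc : Z.card = X.card + 1) : ∃ x ∈ Z, X = Z.erase x := by
  obtain ⟨x, h1, h2⟩ := exists_mem_notMem_of_card_lt_card (show X.card < Z.card by omega)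
  refine ⟨x, h1, eq_of_subset_of_card_le (subset_erase.2 ⟨h, h2⟩) ?_⟩
  rw [card_erase_of_mem h1]
  omega

variable {E : Finset α} {r : ℕ} {𝓑 : Finset (Finset α)}

lemma Pav.ext (h : Pav E (r + 1) 𝓑) {A S : Finset α} {x : α} (hA : A ⊆ E) (hx : x ∈ E)
    (hx' : x ∉ A) (h1 : ∀ B ∈ 𝓑, ¬ B ⊆ A) (hS : S ⊆ A) (hc : S.card = r) (h2 : insert x S ∉ 𝓑) :
    ∀ B ∈ 𝓑, ¬ B ⊆ insert x A := by
  have key : ∀ k (T : Finset α), T ⊆ A → T.card = r → (T \ S).card = k → insert x T ∉ 𝓑 := by
    intro k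
    induction k with
    | zero =>
      intro T _ a b
      rwa [eq_of_subset_of_card_le (sdiff_eq_empty_iff_subset.1 (card_eq_zero.1 b)) (by omega)]
    | succ k ih =>
      intro T a b c
      obtain ⟨u, hu⟩ := card_pos.1 (show 0 < (T \ S).card by omega)
      obtain ⟨v, hv⟩ := card_pos.1 (show 0 < (S \ T).card by
        rw [card_sdiff_comm (hc.trans b.symm)]; omega)
      obtain ⟨u1, u2⟩ := mem_sdiff.1 hu
      obtain ⟨v1, v2⟩ := mem_sdiff.1 hv
      have xT : x ∉ T := fun e => hx' (a e)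
      have xv : x ≠ v := fun e => hx' (e ▸ hS v1)
      have uv : u ≠ v := fun e => v2 (e ▸ u1)
      have xu : x ≠ u := fun e => xT (e ▸ u1)
      have := ih (insert v (T.erase u)) (insert_subset (hS v1) ((erase_subset _ _).trans a))
        (by rw [card_insert_of_notMem (by simp [v2]), card_erase_add_one u1, b]) (by
          rw [insert_sdiff_of_mem _ v1, erase_sdiff_comm, card_erase_of_mem hu]; omega)
      have k := h.P (insert x (insert v T))
        (insert_subset hx (insert_subset (hA (hS v1)) (a.trans hA)))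
        (by rw [card_insert_of_notMem (by simp [xT, xv]), card_insert_of_notMem v2, b])
        x (by simp) u (by simp [u1]) v (by simp) xu
        (by
          rw [erase_insert (by simp [xT, xv])]
          exact fun e => h1 _ e (insert_subset (hS v1) a))
        (by rwa [erase_insert_of_ne xu, erase_insert_of_ne uv.symm])
      rwa [erase_insert_of_ne xv, erase_insert v2] at k
  intro B hB e
  by_cases a : x ∈ B
  · refine key _ (B.erase x) (subset_insert_iff.1 e) ?_ rfl (by rwa [insert_erase a])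
    rw [card_erase_of_mem a, (h.sub B hB).2]
    rfl
  · exact h1 B hB ((subset_insert_iff_of_notMem a).1 e)

lemma Pav.good (h : Pav E (r + 1) 𝓑) (hc : r + 4 ≤ E.card) :
    ∃ e ∈ E, ∀ f ∈ E.erase e, ∃ B ∈ 𝓑, e ∉ B ∧ f ∉ B := by
  by_contra hn
  push Not at hn
  obtain ⟨e, he⟩ := card_pos.1 (show 0 < E.card by omega)
  obtain ⟨f, hf, h1⟩ := hn e he
  obtain ⟨e', he'⟩ := card_pos.1 (show 0 < (E \ {e, f}).card by
    have := le_card_sdiff {e, f} E
    have := card_le_two (a := e) (b := f)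
    omega)
  obtain ⟨f', hf', h2⟩ := hn e' (mem_sdiff.1 he').1
  obtain ⟨S, hS, hS'⟩ := exists_subset_card_eq (s := (E \ {e, f}) \ {e', f'}) (n := r) (by
    have := le_card_sdiff {e, f} E
    have := le_card_sdiff {e', f'} (E \ {e, f})
    have := card_le_two (a := e) (b := f)
    have := card_le_two (a := e') (b := f')
    omega)
  simp only [mem_sdiff, mem_insert, mem_singleton, not_or, mem_erase] at he' hf hf'
  have key : ∀ x y, x ∈ E → y ∈ E → ({e, f} : Finset α) = {x, y} → x ≠ e' → x ≠ f' → False := by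
    intro x y hx hy e1 a1 a2
    obtain ⟨B, hB, hB'⟩ := h.NC y hy
    refine h.ext (A := E \ {e, f}) sdiff_subset hx (by simp [e1]) (fun B hB a => ?_)
      (hS.trans sdiff_subset) hS' (fun a => ?_) B hB fun z hz => ?_
    · have := a (h1 B hB fun b => by simpa using a b)
      simp at this
    · have b : ∀ z ∈ insert x S, z ≠ e' ∧ z ≠ f' := fun z hz => by
        rcases mem_insert.1 hz with rfl | hz
        · exact ⟨a1, a2⟩
        · have := hS hz
          simp only [mem_sdiff, mem_insert, mem_singleton, not_or] at this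
          exact this.2
      exact (b _ (h2 _ a fun c => (b _ c).1 rfl)).2 rfl
    · have := (h.sub B hB).1 hz
      have : z ≠ y := fun c => hB' (c ▸ hz)
      simp only [e1, mem_insert, mem_sdiff, mem_singleton]
      tauto
  by_cases a : e = f'
  · exact key f e hf.2 he (pair_comm _ _) (Ne.symm he'.2.2) (a ▸ hf.1)
  · exact key e f he hf.2 rfl (Ne.symm he'.2.1) a

lemma Pav.two (h : Pav E (r + 1) 𝓑) (hc : E.card = r + 3) :
    ((3 : ℕ).multichoose r : ℤ) + g 2 r ≤ 𝓑.card := by
  have h1 := card_mul_le_card_mul (s := powersetCard (r + 1) E \ 𝓑) (t := E) (m := 2) (n := 1)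
    (fun X a => a ∉ X) (fun X hX => by
      obtain ⟨a, b⟩ := mem_powersetCard.1 (mem_sdiff.1 hX).1
      have : E.bipartiteAbove (fun X a => a ∉ X) X = E \ X := by ext; simp
      rw [this, card_sdiff_of_subset a]
      omega) fun a ha => card_le_one.2 fun X hX Y hY => by
      simp only [mem_bipartiteBelow, mem_sdiff, mem_powersetCard] at hX hY
      have c : (E.erase a).card = r + 1 + 1 := by rw [card_erase_of_mem ha]; omega
      obtain ⟨B, hB, hB'⟩ := h.NC a ha
      obtain ⟨x, x1, rfl⟩ := er (subset_erase.2 ⟨hX.1.1.1, hX.2⟩) (by omega)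
      obtain ⟨y, y1, rfl⟩ := er (subset_erase.2 ⟨hY.1.1.1, hY.2⟩) (by omega)
      obtain ⟨z, z1, rfl⟩ := er (subset_erase.2 ⟨(h.sub B hB).1, hB'⟩)
        (by rw [(h.sub B hB).2]; omega)
      by_contra e
      exact h.P _ (erase_subset _ _) c x x1 y y1 z z1 (fun e' => e (e' ▸ rfl)) hX.1.2 hY.1.2 hB
  have h2 := le_card_sdiff 𝓑 (powersetCard (r + 1) E)
  rw [card_powersetCard, hc, Nat.choose_succ_succ', Nat.choose_succ_self_right] at h2
  rw [g_two, Nat.multichoose_eq, show 3 + r - 1 = r + 2 by omega]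
  omega

lemma cnt : ∀ (d r : ℕ) (E : Finset α) (𝓑 : Finset (Finset α)), Pav E (r + 1) 𝓑 →
    E.card = r + d + 3 → ((d + 3).multichoose r : ℤ) + g (d + 2) r ≤ 𝓑.card
  | 0, _, _, _ => fun h hc => h.two hc
  | d + 1, 0, E, 𝓑 => fun h hc => by
    obtain ⟨e, he⟩ := card_pos.1 (show 0 < E.card by omega)
    obtain ⟨B, hB, -⟩ := h.NC e he
    obtain ⟨f, hf⟩ := card_pos.1 (show 0 < B.card by rw [(h.sub B hB).2]; omega)
    obtain ⟨B', hB', hf'⟩ := h.NC f ((h.sub B hB).1 hf)
    have := one_lt_card.2 ⟨B, hB, B', hB', fun e => hf' (e ▸ hf)⟩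
    simp only [Nat.multichoose_zero_right, g]
    omega
  | d + 1, r + 1, E, 𝓑 => fun h hc => by
    obtain ⟨e, he, hg⟩ := h.good (by omega)
    have c : (E.erase e).card = r + d + 4 := by rw [card_erase_of_mem he]; omega
    have m : ∀ X, X ∈ (𝓑.filter (e ∈ ·)).image (·.erase e) ↔ e ∉ X ∧ insert e X ∈ 𝓑 := by
      intro X
      simp only [mem_image, mem_filter]
      constructor
      · rintro ⟨B, ⟨a, b⟩, rfl⟩
        exact ⟨by simp, by rwa [insert_erase b]⟩
      · rintro ⟨a, b⟩
        exact ⟨_, ⟨b, by simp⟩, erase_insert a⟩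
    have h1 := cnt d (r + 1) (E.erase e) (𝓑.filter (e ∉ ·)) ⟨fun B hB => ?_,
      fun Z hZ hc x hx y hy z hz a b c d => ?_, fun f hf => ?_⟩ (by omega)
    have h2 := cnt (d + 1) r (E.erase e) ((𝓑.filter (e ∈ ·)).image (·.erase e)) ⟨fun B hB => ?_,
      fun Z hZ hc x hx y hy z hz a b c => ?_, fun f hf => ?_⟩ (by omega)
    · rw [card_image_of_injOn fun a ha b hb e' => by
        rw [← insert_erase (mem_filter.1 ha).2, ← insert_erase (mem_filter.1 hb).2]
        exact congrArg _ e'] at h2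
      have := card_filter_add_card_filter_not (s := 𝓑) (e ∈ ·)
      have a1 : (d + 1 + 3).multichoose (r + 1) = (d + 3).multichoose (r + 1) +
        (d + 1 + 3).multichoose r := Nat.multichoose_succ_succ (d + 3) r
      have a2 : g (d + 1 + 2) (r + 1) = g (d + 2) (r + 1) + g (d + 1 + 2) r := g_succ (d + 2) r
      omega
    · obtain ⟨a, b⟩ := (m B).1 hB
      obtain ⟨c, d⟩ := h.sub _ b
      rw [card_insert_of_notMem a] at d
      exact ⟨subset_erase.2 ⟨(subset_insert _ _).trans c, a⟩, by omega⟩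
    · have e1 := (subset_erase.1 hZ).2
      have e2 : ∀ w ∈ Z, Z.erase w ∈ (𝓑.filter (e ∈ ·)).image (·.erase e) ↔
          (insert e Z).erase w ∈ 𝓑 := fun w hw => by
        rw [m, erase_insert_of_ne (show e ≠ w from fun e' => e1 (e' ▸ hw))]
        simp [e1]
      rw [e2 _ hx] at b
      rw [e2 _ hy] at c
      rw [e2 _ hz]
      exact h.P _ (insert_subset he (subset_erase.1 hZ).1) (by rw [card_insert_of_notMem e1, hc])
        x (by simp [hx]) y (by simp [hy]) z (by simp [hz]) a b c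
    · obtain ⟨B, hB, hB'⟩ := h.NC f (mem_erase.1 hf).2
      suffices ∃ B ∈ 𝓑, e ∈ B ∧ f ∉ B by
        obtain ⟨B, a, b, c⟩ := this
        exact ⟨B.erase e, (m _).2 ⟨by simp, by rwa [insert_erase b]⟩, by simp [c]⟩
      by_cases a : e ∈ B
      · exact ⟨B, hB, a, hB'⟩
      obtain ⟨x, hx, y, hy, xy⟩ := one_lt_card.1 (show 1 < B.card by rw [(h.sub B hB).2]; omega)
      by_contra hn
      have k : ∀ w ∈ B, (insert e B).erase w ∉ 𝓑 := fun w hw b => hn ⟨_, b, by
        simp only [mem_erase, mem_insert, true_or, and_true]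
        exact fun e' => a (e' ▸ hw), by simp [hB', (mem_erase.1 hf).1]⟩
      exact h.P _ (insert_subset he (h.sub B hB).1) (by
        rw [card_insert_of_notMem a, (h.sub B hB).2]) x (by simp [hx]) y (by simp [hy]) e
        (by simp) xy (k x hx) (k y hy) (by rwa [erase_insert a])
    · obtain ⟨a, b⟩ := mem_filter.1 hB
      exact ⟨subset_erase.2 ⟨(h.sub B a).1, b⟩, (h.sub B a).2⟩
    · have e1 := (subset_erase.1 hZ).2
      exact h.P Z (subset_erase.1 hZ).1 hc x hx y hy z hz a
        (fun e' => b (mem_filter.2 ⟨e', by simp [e1]⟩))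
        (fun e' => c (mem_filter.2 ⟨e', by simp [e1]⟩)) (mem_filter.1 d).1
    · obtain ⟨B, a, b, c⟩ := hg f hf
      exact ⟨B, mem_filter.2 ⟨a, b⟩, c⟩

end comb

lemma ek (a : ℕ → ℝ) (h0 : 0 < a 0) (h1 : ∀ i, a i ≤ a (i + 1)) (z : ℂ) (hz : 1 < ‖z‖) (r : ℕ)
    (l : ℝ) (hl : 0 ≤ l) : (1 + z) * ∑ i ∈ range (r + 1), a i * z ^ i + l * z ^ (r + 1) ≠ 0 := by
  have hT : ∀ r, 0 < a r ∧ ‖a r * z ^ (r + 1) - (z - 1) * ∑ i ∈ range (r + 1), a i * z ^ i‖ ≤
      a r * ‖z‖ ^ r := by
    intro r
    induction r with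
    | zero =>
      refine ⟨h0, ?_⟩
      rw [show (a 0 : ℂ) * z ^ (0 + 1) - (z - 1) * ∑ i ∈ range (0 + 1), a i * z ^ i = a 0 by
        simp; ring]
      simp [abs_of_pos h0]
    | succ r ih =>
      have p := h1 r
      refine ⟨by linarith, ?_⟩
      have e : (a (r + 1) : ℂ) * z ^ (r + 1 + 1) - (z - 1) * ∑ i ∈ range (r + 1 + 1), a i * z ^ i =
          (a r * z ^ (r + 1) - (z - 1) * ∑ i ∈ range (r + 1), a i * z ^ i) +
            ((a (r + 1) - a r : ℝ) : ℂ) * z ^ (r + 1) := by
        rw [sum_range_succ _ (r + 1)]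
        push_cast
        ring
      rw [e]
      refine (norm_add_le _ _).trans ?_
      rw [norm_mul, norm_pow, Complex.norm_real, Real.norm_of_nonneg (by linarith)]
      have : a r * ‖z‖ ^ r ≤ a r * ‖z‖ ^ (r + 1) :=
        mul_le_mul_of_nonneg_left (pow_le_pow_right₀ hz.le (by omega)) ih.1.le
      nlinarith [ih.2]
  intro e
  obtain ⟨p, q⟩ := hT r
  generalize ∑ i ∈ range (r + 1), (a i : ℂ) * z ^ i = S at e q
  have e2 : (1 + z) * (a r * z ^ (r + 1) - (z - 1) * S) =
      z ^ (r + 1) * (a r * (1 + z) + l * (z - 1)) := by linear_combination -(z - 1) * e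
  have n1 : 0 < ‖1 + z‖ := norm_pos_iff.2 fun e' => by
    rw [show z = -1 by linear_combination e'] at hz
    simp at hz
  have n2 : a r * ‖1 + z‖ ≤ ‖a r * (1 + z) + l * (z - 1)‖ := by
    have hz2 : 1 ≤ z.re * z.re + z.im * z.im := by
      rw [← Complex.normSq_apply, Complex.normSq_eq_norm_sq]
      nlinarith
    refine (pow_le_pow_iff_left₀ (by positivity) (norm_nonneg _) two_ne_zero).1 ?_
    rw [mul_pow, ← Complex.normSq_eq_norm_sq, ← Complex.normSq_eq_norm_sq]
    simp only [Complex.normSq_apply]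
    simp
    nlinarith [mul_nonneg (mul_nonneg p.le hl) (sub_nonneg.2 hz2), mul_self_nonneg (l * (z.re - 1)),
      mul_self_nonneg (l * z.im)]
  have n3 := congrArg norm e2
  rw [norm_mul, norm_mul, norm_pow] at n3
  have n5 := mul_le_mul_of_nonneg_left q n1.le
  have n6 := mul_le_mul_of_nonneg_left n2 (show 0 ≤ ‖z‖ ^ (r + 1) by positivity)
  have n7 : 0 < a r * ‖1 + z‖ * ‖z‖ ^ r := by positivity
  rw [← n3, pow_succ ‖z‖] at n6
  nlinarith

lemma id1 (z : ℂ) (d : ℕ) : ∀ r, ∑ k ∈ range (r + 1), ((r + d).choose k : ℂ) * z ^ k *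
    (1 - z) ^ (r - k) = ∑ i ∈ range (r + 1), (d.multichoose i : ℂ) * z ^ i
  | 0 => by simp
  | r + 1 => by
    have h1 : ∑ k ∈ range (r + 1), ((r + d).choose k : ℂ) * z ^ k * (1 - z) ^ (r + 1 - k) =
        (1 - z) * ∑ k ∈ range (r + 1), ((r + d).choose k : ℂ) * z ^ k * (1 - z) ^ (r - k) := by
      rw [mul_sum]
      refine sum_congr rfl fun k hk => ?_
      rw [show r + 1 - k = r - k + 1 by have := mem_range.1 hk; omega]
      ring
    have h2 := sum_range_succ
      (fun k => ((r + d).choose k : ℂ) * z ^ k * (1 - z) ^ (r + 1 - k)) (r + 1)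
    rw [sum_range_succ' _ (r + 1), h1] at h2
    rw [sum_range_succ (fun i => (d.multichoose i : ℂ) * z ^ i), ← id1 z d r,
      sum_range_succ' _ (r + 1), Nat.multichoose_eq, show d + (r + 1) - 1 = r + d by omega,
      show r + 1 + d = r + d + 1 by omega]
    simp only [Nat.choose_succ_succ', Nat.cast_add, add_mul, sum_add_distrib,
      Nat.add_sub_add_right, Nat.choose_zero_right, Nat.sub_self] at h2 ⊢
    have h3 : ∑ k ∈ range (r + 1), ((r + d).choose k : ℂ) * z ^ (k + 1) * (1 - z) ^ (r - k) =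
        z * ∑ k ∈ range (r + 1), ((r + d).choose k : ℂ) * z ^ k * (1 - z) ^ (r - k) := by
      rw [mul_sum]
      exact sum_congr rfl fun k _ => by ring
    linear_combination h2 + h3

lemma id2 (z : ℂ) (d : ℕ) : ∀ s, (1 + z) * ∑ i ∈ range (s + 1), ((g d i : ℝ) : ℂ) * z ^ i =
    ∑ i ∈ range (s + 1), (d.multichoose i : ℂ) * z ^ i + g d s * z ^ (s + 1)
  | 0 => by simp [g]
  | s + 1 => by
    rw [sum_range_succ, mul_add, id2 z d s, sum_range_succ _ (s + 1), g]
    push_cast
    ring

theorem result (m : ℕ) (M : Matroid (Fin m)) (hE : M.E = Set.univ) (hP : IsPaving M) (z : ℂ)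
    (h : rel M z = 0) : ‖z‖ ≤ 1 := by
  classical
  by_contra hz
  replace hz := not_le.1 hz
  obtain ⟨B0, hB0⟩ := M.exists_isBase
  lift B0 to Finset (Fin m) using Set.toFinite _
  obtain ⟨r, hr⟩ : ∃ r, B0.card = r := ⟨_, rfl⟩
  have rk : M.eRank = r := by rw [← hB0.encard_eq_eRank, Set.encard_coe_eq_coe_finsetCard, hr]
  obtain ⟨d, rfl⟩ : ∃ d, m = r + d := Nat.exists_eq_add_of_le (by simpa [hr] using card_le_univ B0)
  have F1 : ∀ I : Finset (Fin (r + d)), I.card < r → M.Indep I := by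
    intro I hI
    by_contra a
    obtain ⟨C, c1, c2⟩ := ((M.not_indep_iff (by simp [hE])).1 a).exists_isCircuit_subset
    have := (hP C c2).trans (Set.encard_le_encard c1)
    rw [rk, Set.encard_coe_eq_coe_finsetCard, Nat.cast_le] at this
    omega
  have aug : ∀ I J : Finset (Fin (r + d)), M.Indep J → J.card = r → I.card + 1 = r →
      ∃ w ∈ J, w ∉ I ∧ M.Indep ↑(insert w I) := by
    intro I J a b c
    obtain ⟨w, w1, w2⟩ := (F1 I (by omega)).exists_insert_of_encard_lt a (by
      simp only [Set.encard_coe_eq_coe_finsetCard, Nat.cast_lt]; omega)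
    exact ⟨w, w1.1, w1.2, by simpa using w2⟩
  obtain ⟨𝓑, h𝓑⟩ : ∃ 𝓑 : Finset (Finset (Fin (r + d))), 𝓑 = univ.filter fun I : Finset _ =>
    I.card = r ∧ M.Indep I := ⟨_, rfl⟩
  have mB : ∀ I, I ∈ 𝓑 ↔ I.card = r ∧ M.Indep I := by simp [h𝓑]
  have e0 : ∑ i ∈ range (r + 1), (d.multichoose i : ℂ) * z ^ i +
      (𝓑.card - (r + d).choose r) * z ^ r = 0 := by
    have z1 : (1 - z) ^ d ≠ 0 := pow_ne_zero _ fun e => by
      rw [show z = 1 by linear_combination -e] at hz
      simp at hz
    refine (mul_eq_zero.1 ?_).resolve_left z1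
    rw [← h, rel, ← id1, ← sum_subset (range_subset_range.2 (show r + 1 ≤ r + d + 1 by omega)),
      sum_range_succ, sum_range_succ, mul_add, mul_add, mul_sum]
    · have : f M r = 𝓑.card := by rw [h𝓑, f]
      rw [this, sum_congr rfl fun k hk => (?_ : (f M k : ℂ) * z ^ k * (1 - z) ^ (r + d - k) =
        (1 - z) ^ d * (((r + d).choose k : ℂ) * z ^ k * (1 - z) ^ (r - k)))]
      · simp
        ring
      · have hk := mem_range.1 hk
        have : f M k = (r + d).choose k := by
          rw [f, show (r + d).choose k = (powersetCard k (univ : Finset (Fin (r + d)))).card by simp]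
          congr 1
          ext I
          simpa using fun a => F1 I (by omega)
        rw [this, show r + d - k = d + (r - k) by omega]
        ring
    · intro k _ hk
      have : f M k = 0 := by
        rw [f, card_eq_zero, filter_eq_empty_iff]
        rintro I - ⟨a, b⟩
        have := b.encard_le_eRank
        rw [rk, Set.encard_coe_eq_coe_finsetCard, Nat.cast_le] at this
        simp at hk
        omega
      simp [this]
  have b0 : B0 ∈ 𝓑 := (mB _).2 ⟨hr, hB0.indep⟩
  have mono : ∀ d i, (((d + 1).multichoose i : ℕ) : ℝ) ≤ ((d + 1).multichoose (i + 1) : ℕ) :=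
    fun d i => by exact_mod_cast (by rw [Nat.multichoose_succ_succ]; omega)
  have ek0 : ∀ d s, ∑ i ∈ range (s + 1), ((d + 1).multichoose i : ℂ) * z ^ i ≠ 0 := fun d s e =>
    ek (fun i => ((d + 1).multichoose i : ℕ)) (by simp) (mono d) z hz s 0 le_rfl (by simp [e])
  rcases r with _ | s
  · have := card_pos.2 ⟨_, b0⟩
    simp at e0
    simp [e0] at this
  have c1 : (s + 1 + d).choose (s + 1) = d.multichoose (s + 1) + (d + 1).multichoose s := by
    rw [← Nat.multichoose_succ_succ, Nat.multichoose_eq]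
    congr 1
    omega
  have e1 : ∑ i ∈ range (s + 1), (d.multichoose i : ℂ) * z ^ i +
      (𝓑.card - (d + 1).multichoose s) * z ^ (s + 1) = 0 := by
    rw [sum_range_succ, c1] at e0
    push_cast at e0
    linear_combination e0
  by_cases hc : ∃ e, ∀ B ∈ 𝓑, e ∈ B
  · obtain ⟨e, he⟩ := hc
    have : 𝓑.card = (d + 1).multichoose s := by
      rw [Nat.multichoose_eq, show d + 1 + s - 1 = (univ.erase e).card by simp; omega,
        ← card_powersetCard]
      refine card_bij (fun B _ => B.erase e) (fun B hB => ?_) (fun a ha b hb e' => ?_)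
        fun I hI => ?_
      · exact mem_powersetCard.2 ⟨erase_subset_erase _ (subset_univ _), by
          rw [card_erase_of_mem (he B hB), ((mB B).1 hB).1]; rfl⟩
      · rw [← insert_erase (he a ha), ← insert_erase (he b hb), e']
      · obtain ⟨i1, i2⟩ := mem_powersetCard.1 hI
        have i3 := (subset_erase.1 i1).2
        obtain ⟨w, -, w2, w3⟩ := aug I B0 hB0.indep hr (by omega)
        have w4 := (mB _).2 ⟨by rw [card_insert_of_notMem w2, i2], w3⟩
        obtain rfl : e = w := (mem_insert.1 (he _ w4)).resolve_right i3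
        exact ⟨_, w4, erase_insert i3⟩
    rw [this, sub_self, zero_mul, add_zero] at e1
    rcases d with _ | d
    · simp [sum_range_succ'] at e1
    · exact ek0 d s e1
  push Not at hc
  have pv : Pav univ (s + 1) 𝓑 := by
    refine ⟨fun B hB => ⟨subset_univ _, ((mB B).1 hB).1⟩,
      fun Z _ hZ x hx y hy w hw xy a b c => ?_, fun e _ => hc e⟩
    have hy' : y ∈ Z.erase x := mem_erase.2 ⟨xy.symm, hy⟩
    obtain ⟨u, u1, u2, u3⟩ := aug ((Z.erase x).erase y) _ ((mB _).1 c).2 ((mB _).1 c).1 (by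
      rw [card_erase_of_mem hy', card_erase_of_mem hx]; omega)
    have u4 := mem_of_mem_erase u1
    by_cases d1 : u = y
    · rw [d1, insert_erase hy'] at u3
      exact a ((mB _).2 ⟨by rw [card_erase_of_mem hx]; omega, u3⟩)
    · obtain rfl : u = x := by
        by_contra d2
        exact u2 (by simp [d1, d2, u4])
      rw [erase_right_comm, insert_erase (mem_erase.2 ⟨xy, hx⟩)] at u3
      exact b ((mB _).2 ⟨by rw [card_erase_of_mem hy]; omega, u3⟩)
  rcases d with _ | _ | d
  · obtain ⟨B, a, b⟩ := hc ⟨0, by omega⟩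
    rw [eq_univ_of_card B (by simp [((mB B).1 a).1])] at b
    simp at b
  · have : 𝓑 = powersetCard (s + 1) univ := by
      ext X
      simp only [mem_powersetCard, subset_univ, true_and]
      refine ⟨fun a => ((mB X).1 a).1, fun a => ?_⟩
      obtain ⟨x, -, rfl⟩ := er (subset_univ X) (by simp [a])
      obtain ⟨B, b1, b2⟩ := hc x
      rwa [← eq_of_subset_of_card_le (subset_erase.2 ⟨subset_univ B, b2⟩)
        (by rw [a, ((mB B).1 b1).1])]
    rw [this, card_powersetCard] at e0
    exact ek0 0 (s + 1) (by simpa using e0)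
  · have k := cnt d s univ 𝓑 pv (by simp; omega)
    refine ek (fun i => g (d + 2) i) (by simp [g]) (fun i => ?_) z hz s
      ((𝓑.card - (d + 3).multichoose s - g (d + 2) s : ℤ) : ℝ) (Int.cast_nonneg (by omega)) ?_
    · have : g (d + 2) (i + 1) = g (d + 1) (i + 1) + g (d + 2) i := g_succ (d + 1) i
      have := g_nonneg d (i + 1)
      exact Int.cast_le.2 (by omega)
    · rw [id2]
      push_cast
      linear_combination e1

end Pool.Agent.Results.MP_1ae31d_co.Paving
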